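import Mathlib

/-!
# Slowly varying functions of Hilbert distances have few patterns
-/

set_option autoImplicit false

open scoped InnerProductSpace

namespace Pool.Agent.Q189.NE

/-- The logarithm of `e + s⁺`. -/
noncomputable def Lam (s : ℝ) : ℝ := Real.log (Real.exp 1 + max s 0)

/-- The slowly oscillating function. -/
noncomputable def G (s : ℝ) : ℝ := Real.cos (Real.log (Lam s))

theorem pos_aux (s : ℝ) : 0 < Real.exp 1 + max s 0 :=
  add_pos_of_pos_of_nonneg (Real.exp_pos 1) (le_max_right _ _)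

theorem one_le_Lam (s : ℝ) : 1 ≤ Lam s := by
  unfold Lam
  rw [Real.le_log_iff_exp_le (pos_aux s)]
  linarith [le_max_right s 0]

theorem Lam_mono {s t : ℝ} (h : s ≤ t) : Lam s ≤ Lam t := by
  unfold Lam
  exact Real.log_le_log (pos_aux s) (by gcongr)

theorem cos_lip (a b : ℝ) : |Real.cos a - Real.cos b| ≤ |a - b| := by
  have := Real.lipschitzWith_cos.dist_le_mul a b
  simpa [Real.dist_eq] using this

theorem logLam_sub {s t : ℝ} (h : s ≤ t) :
    |Real.log (Lam s) - Real.log (Lam t)| ≤ (Lam t - Lam s) / Lam s := by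
  have h1 := one_le_Lam s
  have h2 := Lam_mono h
  have h3 : Real.log (Lam s) ≤ Real.log (Lam t) := Real.log_le_log (by linarith) h2
  rw [abs_sub_comm, abs_of_nonneg (by linarith), ← Real.log_div (by linarith) (by linarith)]
  refine (Real.log_le_sub_one_of_pos (div_pos (by linarith) (by linarith))).trans ?_
  rw [sub_div, div_self (by linarith)]

theorem G_lip_aux {s t : ℝ} (h : s ≤ t) : |G s - G t| ≤ t - s := by
  refine (cos_lip _ _).trans ((logLam_sub h).trans ?_)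
  have h1 := one_le_Lam s
  have h2 := Lam_mono h
  have h3 : (Lam t - Lam s) / Lam s ≤ Lam t - Lam s := div_le_self (by linarith) h1
  refine h3.trans ?_
  unfold Lam
  rw [← Real.log_div (pos_aux t).ne' (pos_aux s).ne']
  refine (Real.log_le_sub_one_of_pos (div_pos (pos_aux t) (pos_aux s))).trans ?_
  have h4 : (Real.exp 1 + max t 0) / (Real.exp 1 + max s 0) - 1 =
      (max t 0 - max s 0) / (Real.exp 1 + max s 0) := by
    have := (pos_aux s).ne'
    field_simp
    ring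
  rw [h4]
  have h5 : max s 0 ≤ max t 0 := max_le_max h le_rfl
  have h6 : (1 : ℝ) ≤ Real.exp 1 + max s 0 := by
    have := Real.add_one_le_exp (1 : ℝ)
    linarith [le_max_right s 0]
  refine (div_le_self (by linarith) h6).trans ?_
  rcases le_total s 0 with hs | hs <;> rcases le_total t 0 with ht | ht
  · rw [max_eq_right hs, max_eq_right ht]; linarith
  · rw [max_eq_right hs, max_eq_left ht]; linarith
  · rw [max_eq_left hs, max_eq_right ht]; linarith
  · rw [max_eq_left hs, max_eq_left ht]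

theorem G_lip (s t : ℝ) : |G s - G t| ≤ |s - t| := by
  rcases le_total s t with h | h
  · exact (G_lip_aux h).trans (by rw [abs_sub_comm]; exact le_abs_self _)
  · rw [abs_sub_comm]
    exact (G_lip_aux h).trans (le_abs_self _)

theorem G_continuous : Continuous G := by
  have : LipschitzWith 1 G := LipschitzWith.of_dist_le_mul fun s t => by
    simpa [Real.dist_eq] using G_lip s t
  exact this.continuous

theorem abs_G_le (s : ℝ) : |G s| ≤ 1 := Real.abs_cos_le_one _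

theorem G_slow_aux (γ : ℝ) (hγ : 0 < γ) : ∃ t0 : ℝ, 0 < t0 ∧ ∀ s t : ℝ, t0 ^ 2 ≤ s → s ≤ t →
    t ≤ 9 * s → |G s - G t| ≤ γ := by
  refine ⟨Real.exp (Real.log 9 / γ), Real.exp_pos _, fun s t hs hst ht => ?_⟩
  have hlog9 : 0 < Real.log 9 := Real.log_pos (by norm_num)
  have h0 : (1 : ℝ) ≤ Real.exp (Real.log 9 / γ) := Real.one_le_exp (by positivity)
  have h00 : Real.exp (Real.log 9 / γ) ≤ s := by
    refine le_trans ?_ hs
    nlinarith
  have hs0 : 0 < s := by linarith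
  refine (cos_lip _ _).trans ((logLam_sub hst).trans ?_)
  have h1 : Lam t - Lam s ≤ Real.log 9 := by
    unfold Lam
    rw [max_eq_left hs0.le, max_eq_left (by linarith),
      ← Real.log_div (by have := Real.exp_pos 1; linarith) (by have := Real.exp_pos 1; linarith)]
    have h9 : 0 < Real.exp 1 + t := by have := Real.exp_pos 1; linarith
    have h8 : 0 < Real.exp 1 + s := by have := Real.exp_pos 1; linarith
    refine Real.log_le_log (div_pos h9 h8) ?_
    rw [div_le_iff₀ h8]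
    have := Real.exp_pos 1
    linarith
  have h2 : Real.log 9 / γ ≤ Lam s := by
    unfold Lam
    rw [max_eq_left hs0.le, Real.le_log_iff_exp_le (by positivity)]
    have := Real.exp_pos 1
    linarith
  have h3 := one_le_Lam s
  rw [div_le_iff₀ (by linarith)]
  rw [div_le_iff₀ hγ] at h2
  linarith

theorem G_slow (γ : ℝ) (hγ : 0 < γ) : ∃ t0 : ℝ, 0 < t0 ∧ ∀ s t : ℝ, t0 ^ 2 ≤ s → t0 ^ 2 ≤ t →
    t ≤ 9 * s → s ≤ 9 * t → |G s - G t| ≤ γ := by
  obtain ⟨t0, ht0, h⟩ := G_slow_aux γ hγ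
  refine ⟨t0, ht0, fun s t hs ht h1 h2 => ?_⟩
  rcases le_total s t with h' | h'
  · exact h s t hs h' h1
  · rw [abs_sub_comm]
    exact h t s ht h' h2

section Perceptron

variable {H : Type*} [NormedAddCommGroup H] [InnerProductSpace ℝ H] {ι : Type*}

/-- The correction terms. -/
def corr (η : ℝ) (x : ι → H) : Option (ι × Bool) → H
  | none => 0
  | some (i, true) => η • x i
  | some (i, false) => -(η • x i)

theorem perceptron (R ε : ℝ) (hR : 0 < R) (hε : 0 < ε) (x : ι → H) (hx : ∀ i, ‖x i‖ ≤ R) :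
    ∀ (T : ℕ) (y : H), ‖y‖ ^ 2 ≤ T * (ε ^ 2 / R ^ 2) →
      ∃ σ : Fin T → Option (ι × Bool),
        ∀ i, |⟪y - ∑ t, corr (ε / R ^ 2) x (σ t), x i⟫_ℝ| ≤ ε := by
  intro T
  induction T with
  | zero =>
    intro y hy
    refine ⟨fun _ => none, fun i => ?_⟩
    have : y = 0 := by
      have h1 : ‖y‖ ^ 2 ≤ 0 := by simpa using hy
      have h2 : ‖y‖ = 0 := by nlinarith [norm_nonneg y]
      exact norm_eq_zero.1 h2
    simp [this, hε.le]
  | succ T ih =>
    intro y hy
    by_cases hall : ∀ i, |⟪y, x i⟫_ℝ| ≤ ε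
    · refine ⟨fun _ => none, fun i => ?_⟩
      simpa [corr] using hall i
    · push Not at hall
      obtain ⟨i, hi⟩ := hall
      have hη : 0 < ε / R ^ 2 := by positivity
      have hxi : ‖x i‖ ^ 2 ≤ R ^ 2 := by
        have := hx i
        have := norm_nonneg (x i)
        nlinarith
      have hkey : ∀ s : ℝ, (s = 1 ∨ s = -1) → s * ⟪y, x i⟫_ℝ = |⟪y, x i⟫_ℝ| →
          ‖y - (s * (ε / R ^ 2)) • x i‖ ^ 2 ≤ T * (ε ^ 2 / R ^ 2) := by
        intro s hs hsa
        have h1 : ‖y - (s * (ε / R ^ 2)) • x i‖ ^ 2 =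
            ‖y‖ ^ 2 - 2 * (ε / R ^ 2) * (s * ⟪y, x i⟫_ℝ) + (s * s) * (ε / R ^ 2) ^ 2 * ‖x i‖ ^ 2 := by
          rw [norm_sub_sq_real, inner_smul_right, norm_smul, mul_pow, Real.norm_eq_abs, sq_abs]
          ring
        have hss : s * s = 1 := by rcases hs with h | h <;> rw [h] <;> norm_num
        rw [h1, hsa, hss, one_mul]
        have h2 : (ε / R ^ 2) ^ 2 * ‖x i‖ ^ 2 ≤ (ε / R ^ 2) ^ 2 * R ^ 2 :=
          mul_le_mul_of_nonneg_left hxi (by positivity)
        have h3 : (ε / R ^ 2) ^ 2 * R ^ 2 = ε ^ 2 / R ^ 2 := by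
          field_simp
        have h4 : 2 * (ε / R ^ 2) * ε ≤ 2 * (ε / R ^ 2) * |⟪y, x i⟫_ℝ| :=
          mul_le_mul_of_nonneg_left hi.le (by positivity)
        have h5 : 2 * (ε / R ^ 2) * ε = 2 * (ε ^ 2 / R ^ 2) := by ring
        push_cast at hy
        linarith
      rcases le_total 0 (⟪y, x i⟫_ℝ) with h0 | h0
      · obtain ⟨σ, hσ⟩ := ih _ (hkey 1 (Or.inl rfl) (by rw [one_mul, abs_of_nonneg h0]))
        refine ⟨Fin.cons (some (i, true)) σ, fun j => ?_⟩
        rw [Fin.sum_univ_succ]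
        simp only [Fin.cons_zero, Fin.cons_succ]
        rw [show corr (ε / R ^ 2) x (some (i, true)) = (ε / R ^ 2) • x i from rfl, ← sub_sub]
        have := hσ j
        rw [one_mul] at this
        exact this
      · obtain ⟨σ, hσ⟩ := ih _ (hkey (-1) (Or.inr rfl) (by rw [abs_of_nonpos h0]; ring))
        refine ⟨Fin.cons (some (i, false)) σ, fun j => ?_⟩
        rw [Fin.sum_univ_succ]
        simp only [Fin.cons_zero, Fin.cons_succ]
        rw [show corr (ε / R ^ 2) x (some (i, false)) = -((ε / R ^ 2) • x i) from rfl, ← sub_sub]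
        have := hσ j
        rw [neg_one_mul, neg_smul] at this
        exact this

end Perceptron

theorem grid (A η : ℝ) (hη : 0 < η) : ∃ (g : ℕ) (φ : Fin g → ℝ), ∀ c : ℝ, |c| ≤ A →
    ∃ j, |c - φ j| ≤ η := by
  refine ⟨⌊2 * A / η⌋₊ + 1, fun j => -A + j * η, fun c hc => ?_⟩
  have h1 : 0 ≤ (c + A) / η := div_nonneg (by linarith [(abs_le.1 hc).1]) hη.le
  have h2 : (c + A) / η ≤ 2 * A / η := by
    gcongr
    linarith [(abs_le.1 hc).2]
  refine ⟨⟨⌊(c + A) / η⌋₊, Nat.lt_succ_of_le (Nat.floor_le_floor h2)⟩, ?_⟩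
  have h3 := Nat.floor_le h1
  have h4 := Nat.lt_floor_add_one ((c + A) / η)
  rw [le_div_iff₀ hη] at h3
  rw [div_lt_iff₀ hη] at h4
  rw [abs_le]
  constructor
  · simp only; linarith
  · simp only; linarith

/-- The class type. -/
abbrev Cls (ι : Type) (T g : ℕ) : Type :=
  (ι × ι × Fin g) ⊕ (ι × (Fin T → Option (ι × Bool)) × Fin g)

theorem main_cover (γ : ℝ) (hγ : 0 < γ) : ∃ T g : ℕ,
    ∀ (H : Type) [NormedAddCommGroup H] [InnerProductSpace ℝ H] (ι : Type) [Fintype ι]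
      [Nonempty ι] (v : ι → H), ∃ Z : Cls ι T g → ι → ℝ, ∀ u : H, ∃ c : Cls ι T g,
        ∀ i, |G (‖u - v i‖ ^ 2) - Z c i| ≤ γ := by
  obtain ⟨t0, ht0, hslow⟩ := G_slow (γ / 2) (by positivity)
  obtain ⟨g, φ, hφ⟩ := grid (max 1 (t0 ^ 2)) (γ / 2) (by positivity)
  obtain ⟨T, hT⟩ := exists_nat_ge (t0 ^ 2 / ((γ / 4) ^ 2 / (3 * t0) ^ 2))
  refine ⟨T, g, ?_⟩
  intro H _ _ ι _ _ v
  classical
  let D : ι → ι → ℝ := fun i0 i => ‖v i - v i0‖
  let x : ι → ι → H := fun i0 i => if D i0 i < 3 * t0 then v i - v i0 else 0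
  have hx : ∀ i0 i, ‖x i0 i‖ ≤ 3 * t0 := by
    intro i0 i
    show ‖(if D i0 i < 3 * t0 then v i - v i0 else 0)‖ ≤ _
    split_ifs with h
    · exact h.le
    · rw [norm_zero]; positivity
  let Z : Cls ι T g → ι → ℝ := fun c i => match c with
    | Sum.inl (i0, j, k) => if D i0 i ≤ D i0 j then φ k else G (D i0 i ^ 2)
    | Sum.inr (i0, σ, k) => if D i0 i < 3 * t0 then
        G (φ k + D i0 i ^ 2 - 2 * ⟪∑ t, corr (γ / 4 / (3 * t0) ^ 2) (x i0) (σ t), x i0 i⟫_ℝ)
        else G (D i0 i ^ 2)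
  refine ⟨Z, fun u => ?_⟩
  obtain ⟨i0, hi0⟩ := Finite.exists_min (fun i => ‖u - v i‖)
  set r := ‖u - v i0‖ with hr
  have hr0 : 0 ≤ r := norm_nonneg _
  have htri1 : ∀ i, ‖u - v i‖ ≤ r + D i0 i := by
    intro i
    have : u - v i = (u - v i0) - (v i - v i0) := by abel
    rw [this]
    exact norm_sub_le _ _
  have htri2 : ∀ i, D i0 i ≤ ‖u - v i‖ + r := by
    intro i
    have : v i - v i0 = (u - v i0) - (u - v i) := by abel
    show ‖v i - v i0‖ ≤ _
    rw [this]
    refine (norm_sub_le _ _).trans ?_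
    rw [add_comm]
  by_cases hcase : t0 ≤ r
  · -- far case
    have hS : ((Finset.univ : Finset ι).filter (fun i => D i0 i ≤ r)).Nonempty := by
      refine ⟨i0, Finset.mem_filter.2 ⟨Finset.mem_univ _, ?_⟩⟩
      show ‖v i0 - v i0‖ ≤ r
      rw [sub_self, norm_zero]; exact hr0
    obtain ⟨j, hj, hjmax⟩ := Finset.exists_max_image _ (fun i => D i0 i) hS
    obtain ⟨k, hk⟩ := hφ (G (r ^ 2)) ((abs_G_le _).trans (le_max_left _ _))
    refine ⟨Sum.inl (i0, j, k), fun i => ?_⟩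
    show |G (‖u - v i‖ ^ 2) - (if D i0 i ≤ D i0 j then φ k else G (D i0 i ^ 2))| ≤ γ
    have hri : r ≤ ‖u - v i‖ := hi0 i
    have h1 := htri1 i
    have h2 := htri2 i
    have hD : 0 ≤ D i0 i := norm_nonneg _
    have hjr : D i0 j ≤ r := (Finset.mem_filter.1 hj).2
    split_ifs with h
    · have hir : D i0 i ≤ r := h.trans hjr
      have h3 : |G (‖u - v i‖ ^ 2) - G (r ^ 2)| ≤ γ / 2 := by
        apply hslow <;> nlinarith
      calc |G (‖u - v i‖ ^ 2) - φ k| = |(G (‖u - v i‖ ^ 2) - G (r ^ 2)) + (G (r ^ 2) - φ k)| := by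
            ring_nf
        _ ≤ |G (‖u - v i‖ ^ 2) - G (r ^ 2)| + |G (r ^ 2) - φ k| := abs_add_le _ _
        _ ≤ γ := by linarith
    · have hir : r < D i0 i := by
        by_contra hcon
        push Not at hcon
        exact h (hjmax i (Finset.mem_filter.2 ⟨Finset.mem_univ _, hcon⟩))
      have h3 : |G (‖u - v i‖ ^ 2) - G (D i0 i ^ 2)| ≤ γ / 2 := by
        apply hslow <;> nlinarith
      linarith
  · -- near case
    push Not at hcase
    set y := u - v i0 with hy
    have hyn : ‖y‖ ^ 2 ≤ T * ((γ / 4) ^ 2 / (3 * t0) ^ 2) := by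
      have h1 : ‖y‖ ^ 2 ≤ t0 ^ 2 := by
        have : ‖y‖ = r := rfl
        rw [this]; nlinarith
      refine h1.trans ?_
      rw [div_le_iff₀ (by positivity)] at hT
      exact hT
    obtain ⟨σ, hσ⟩ := perceptron (3 * t0) (γ / 4) (by positivity) (by positivity) (x i0) (hx i0) T y
      hyn
    obtain ⟨k, hk⟩ := hφ (‖y‖ ^ 2) (by
      rw [abs_of_nonneg (by positivity)]
      refine le_trans ?_ (le_max_right _ _)
      have : ‖y‖ = r := rfl
      rw [this]; nlinarith)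
    refine ⟨Sum.inr (i0, σ, k), fun i => ?_⟩
    show |G (‖u - v i‖ ^ 2) - (if D i0 i < 3 * t0 then
        G (φ k + D i0 i ^ 2 - 2 * ⟪∑ t, corr (γ / 4 / (3 * t0) ^ 2) (x i0) (σ t), x i0 i⟫_ℝ)
        else G (D i0 i ^ 2))| ≤ γ
    have h1 := htri1 i
    have h2 := htri2 i
    have hD : 0 ≤ D i0 i := norm_nonneg _
    split_ifs with h
    · have hxi : x i0 i = v i - v i0 := if_pos h
      have h3 : ‖u - v i‖ ^ 2 = ‖y‖ ^ 2 + D i0 i ^ 2 - 2 * ⟪y, x i0 i⟫_ℝ := by
        have : u - v i = y - (v i - v i0) := by rw [hy]; abel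
        rw [this, norm_sub_sq_real, hxi]
        ring
      refine (G_lip _ _).trans ?_
      have h4 := hσ i
      rw [inner_sub_left] at h4
      rw [h3]
      have h5 : ‖y‖ ^ 2 + D i0 i ^ 2 - 2 * ⟪y, x i0 i⟫_ℝ -
          (φ k + D i0 i ^ 2 - 2 * ⟪∑ t, corr (γ / 4 / (3 * t0) ^ 2) (x i0) (σ t), x i0 i⟫_ℝ) =
          (‖y‖ ^ 2 - φ k) - 2 * (⟪y, x i0 i⟫_ℝ -
            ⟪∑ t, corr (γ / 4 / (3 * t0) ^ 2) (x i0) (σ t), x i0 i⟫_ℝ) := by ring
      rw [h5]
      refine (abs_sub _ _).trans ?_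
      rw [abs_mul, abs_of_pos (by norm_num : (0 : ℝ) < 2)]
      linarith
    · push Not at h
      have h3 : |G (‖u - v i‖ ^ 2) - G (D i0 i ^ 2)| ≤ γ / 2 := by
        have hun := norm_nonneg (u - v i)
        apply hslow <;> nlinarith
      linarith

end Pool.Agent.Q189.NE
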