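import Pool.Agent.Q189.NE.Hilb

/-!
# An unbounded recurrent orbit of an affine isometry of `ℓ²`
-/

set_option autoImplicit false

open Filter Topology

namespace Pool.Agent.Q189.NE

/-- The weights. -/
noncomputable def w (k : ℕ) : ℝ := Real.exp (Real.exp (k * Real.pi))

/-- The quotients. -/
noncomputable def mm (k : ℕ) : ℕ := 4 * ⌈40 * w (k + 1) * 4 ^ (k + 1)⌉₊

/-- The moduli. -/
noncomputable def q : ℕ → ℕ
  | 0 => 4
  | k + 1 => q k * mm k

theorem w_pos (k : ℕ) : 0 < w k := Real.exp_pos _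

theorem exp_one_le_w (k : ℕ) : Real.exp 1 ≤ w k := by
  unfold w
  apply Real.exp_le_exp.2
  apply Real.one_le_exp
  positivity

theorem one_le_w (k : ℕ) : 1 ≤ w k := by
  have := exp_one_le_w k
  have := Real.add_one_le_exp (1 : ℝ)
  linarith

theorem w_succ (k : ℕ) : 2 * w k ≤ w (k + 1) := by
  have h1 : Real.exp (k * Real.pi) + 1 ≤ Real.exp ((k + 1 : ℕ) * Real.pi) := by
    have e : ((k + 1 : ℕ) : ℝ) * Real.pi = k * Real.pi + Real.pi := by push_cast; ring
    rw [e, Real.exp_add]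
    have h2 : 1 ≤ Real.exp (k * Real.pi) := Real.one_le_exp (by positivity)
    have h3 : Real.pi + 1 ≤ Real.exp Real.pi := Real.add_one_le_exp _
    have h4 := Real.pi_gt_three
    nlinarith
  have h2 : w k * Real.exp 1 ≤ w (k + 1) := by
    unfold w
    rw [← Real.exp_add]
    exact Real.exp_le_exp.2 h1
  have h3 : (2 : ℝ) ≤ Real.exp 1 := by
    have := Real.add_one_le_exp (1 : ℝ); linarith
  have := w_pos k
  nlinarith

theorem sum_w (K : ℕ) : ∑ k ∈ Finset.range (K + 1), w k ≤ 2 * w K := by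
  induction K with
  | zero => simp; linarith [w_pos 0]
  | succ K ih =>
    rw [Finset.sum_range_succ]
    have := w_succ K
    linarith

theorem mm_ge (k : ℕ) : 40 * w (k + 1) * 4 ^ (k + 1) ≤ mm k := by
  have h := Nat.le_ceil (40 * w (k + 1) * 4 ^ (k + 1))
  unfold mm
  push_cast
  have : (0 : ℝ) ≤ (⌈40 * w (k + 1) * 4 ^ (k + 1)⌉₊ : ℝ) := Nat.cast_nonneg _
  linarith

theorem four_le_mm (k : ℕ) : 4 ≤ mm k := by
  unfold mm
  have : 0 < ⌈40 * w (k + 1) * 4 ^ (k + 1)⌉₊ := Nat.ceil_pos.2 (by have := w_pos (k + 1); positivity)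
  omega

theorem four_dvd_mm (k : ℕ) : 4 ∣ mm k := ⟨_, rfl⟩

theorem mm_key (k : ℕ) : w (k + 1) * (40 / (mm k : ℝ) ^ 2) ≤ (1 / 4) ^ (k + 1) := by
  have h1 := mm_ge k
  have h2 : (1 : ℝ) ≤ mm k := by exact_mod_cast (show 1 ≤ mm k by have := four_le_mm k; omega)
  have h3 : (mm k : ℝ) ≤ (mm k : ℝ) ^ 2 := by nlinarith
  rw [← mul_div_assoc, div_le_iff₀ (by positivity), one_div, inv_pow]
  rw [inv_mul_eq_div, le_div_iff₀ (by positivity)]
  linarith

theorem q_pos (k : ℕ) : 0 < q k := by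
  induction k with
  | zero => exact Nat.succ_pos _
  | succ k ih =>
    show 0 < q k * mm k
    have := four_le_mm k
    positivity

theorem four_dvd_q (k : ℕ) : 4 ∣ q k := by
  cases k with
  | zero => exact ⟨1, rfl⟩
  | succ k => exact Dvd.dvd.mul_left (four_dvd_mm k) _

theorem q_dvd_succ (k : ℕ) : q k ∣ q (k + 1) := ⟨mm k, rfl⟩

theorem q_dvd {j k : ℕ} (h : j ≤ k) : q j ∣ q k := by
  induction h with
  | refl => exact dvd_rfl
  | step _ ih => exact ih.trans (q_dvd_succ _)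

theorem q_mono {j k : ℕ} (h : j ≤ k) : q j ≤ q k := Nat.le_of_dvd (q_pos k) (q_dvd h)

theorem q_ge (k : ℕ) : k + 1 ≤ q k := by
  induction k with
  | zero => show 0 + 1 ≤ (4 : ℕ); norm_num
  | succ k ih =>
    show k + 1 + 1 ≤ q k * mm k
    have := four_le_mm k
    nlinarith

/-- `|1 - e(x)|²`. -/
noncomputable def c (x : ℝ) : ℝ := 2 - 2 * Real.cos (2 * Real.pi * x)

theorem c_nonneg (x : ℝ) : 0 ≤ c x := by
  unfold c; linarith [Real.cos_le_one (2 * Real.pi * x)]

theorem c_le_four (x : ℝ) : c x ≤ 4 := by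
  unfold c; linarith [Real.neg_one_le_cos (2 * Real.pi * x)]

theorem c_le (x : ℝ) : c x ≤ 40 * x ^ 2 := by
  unfold c
  have h := Real.one_sub_sq_div_two_le_cos (x := 2 * Real.pi * x)
  have h2 : Real.pi ^ 2 ≤ 10 := by
    have := Real.pi_lt_d2
    have := Real.pi_pos
    nlinarith
  have h3 : (2 * Real.pi * x) ^ 2 ≤ 40 * x ^ 2 := by
    have : (2 * Real.pi * x) ^ 2 = 4 * Real.pi ^ 2 * x ^ 2 := by ring
    rw [this]
    have := sq_nonneg x
    nlinarith
  linarith

theorem c_int (n : ℤ) : c n = 0 := by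
  unfold c
  rw [show 2 * Real.pi * (n : ℝ) = n * (2 * Real.pi) by ring, Real.cos_int_mul_two_pi]
  ring

/-- The terms. -/
noncomputable def tm (x : ℝ) (k : ℕ) : ℝ := w k * c (x / q k)

theorem tm_nonneg (x : ℝ) (k : ℕ) : 0 ≤ tm x k := mul_nonneg (w_pos k).le (c_nonneg _)

theorem tm_le_w (x : ℝ) (k : ℕ) : tm x k ≤ 4 * w k := by
  unfold tm
  have := c_le_four (x / q k)
  have := w_pos k
  nlinarith

theorem tm_le_of_le {x : ℝ} {k : ℕ} (hx : |x| ≤ q k) : tm x (k + 1) ≤ (1 / 4) ^ (k + 1) := by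
  unfold tm
  refine le_trans ?_ (mm_key k)
  refine mul_le_mul_of_nonneg_left ((c_le _).trans ?_) (w_pos _).le
  have h1 : (0 : ℝ) < q k := by exact_mod_cast q_pos k
  have h2 : (0 : ℝ) < mm k := by exact_mod_cast (show 0 < mm k by have := four_le_mm k; omega)
  have h3 : ((q (k + 1) : ℕ) : ℝ) = q k * mm k := by
    rw [show q (k + 1) = q k * mm k from rfl]; push_cast; ring
  rw [h3, ← mul_one_div 40, div_pow]
  refine mul_le_mul_of_nonneg_left ?_ (by norm_num)
  rw [mul_pow, div_le_div_iff₀ (by positivity) (by positivity), one_mul]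
  have h4 : x ^ 2 ≤ (q k : ℝ) ^ 2 := by
    rw [← sq_abs]
    exact pow_le_pow_left₀ (abs_nonneg _) hx 2
  exact mul_le_mul_of_nonneg_right h4 (by positivity)

theorem tm_summable (x : ℝ) : Summable (tm x) := by
  obtain ⟨K, hK⟩ := exists_nat_ge |x|
  rw [← summable_nat_add_iff (K + 1)]
  refine Summable.of_nonneg_of_le (fun k => tm_nonneg x _) (fun k => ?_)
    ((summable_nat_add_iff (K + 1)).2 (summable_geometric_of_lt_one (by norm_num : (0 : ℝ) ≤ 1 / 4)
      (by norm_num)))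
  rw [show k + (K + 1) = (k + K) + 1 by ring]
  apply tm_le_of_le
  refine hK.trans ?_
  exact_mod_cast (show K ≤ q (k + K) by have := q_ge (k + K); omega)

/-- The squared length. -/
noncomputable def psi (x : ℝ) : ℝ := ∑' k, tm x k

theorem psi_nonneg (x : ℝ) : 0 ≤ psi x := tsum_nonneg (tm_nonneg x)

theorem psi_q (j : ℕ) : psi (q j) ≤ 2 * (1 / 2) ^ j := by
  have hg : Summable (fun k : ℕ => (1 / 2 : ℝ) ^ j * (1 / 2) ^ k) :=
    (summable_geometric_of_lt_one (by norm_num) (by norm_num)).mul_left _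
  have h : ∀ k, tm (q j) k ≤ (1 / 2 : ℝ) ^ j * (1 / 2) ^ k := by
    intro k
    rcases Nat.lt_or_ge j k with hk | hk
    · obtain ⟨i, rfl⟩ : ∃ i, k = i + 1 := ⟨k - 1, by omega⟩
      refine (tm_le_of_le (x := (q j : ℝ)) (k := i) ?_).trans ?_
      · rw [abs_of_nonneg (Nat.cast_nonneg _)]
        exact_mod_cast q_mono (by omega)
      · have e : (1 / 4 : ℝ) ^ (i + 1) = (1 / 2) ^ (i + 1) * (1 / 2) ^ (i + 1) := by
          rw [← mul_pow]; norm_num
        rw [e]
        refine mul_le_mul_of_nonneg_right ?_ (by positivity)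
        exact pow_le_pow_of_le_one (by norm_num) (by norm_num) (by omega)
    · obtain ⟨N, hN⟩ := q_dvd hk
      have h1 : (0 : ℝ) < q k := by exact_mod_cast q_pos k
      have : ((q j : ℕ) : ℝ) / q k = ((N : ℤ) : ℝ) := by
        rw [hN]; push_cast; field_simp
      unfold tm
      rw [this, c_int, mul_zero]
      positivity
  calc psi (q j) ≤ ∑' k : ℕ, (1 / 2 : ℝ) ^ j * (1 / 2) ^ k :=
        Summable.tsum_le_tsum h (tm_summable _) hg
    _ = 2 * (1 / 2) ^ j := by
        rw [tsum_mul_left, tsum_geometric_of_lt_one (by norm_num) (by norm_num)]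
        norm_num
        ring

theorem psi_mid (K n : ℕ) (h1 : q K ≤ 4 * n) (h2 : 4 * n ≤ 3 * q K) :
    2 * w K ≤ psi n ∧ psi n ≤ 9 * w K := by
  have hq : (0 : ℝ) < q K := by exact_mod_cast q_pos K
  constructor
  · have h3 : tm n K ≤ psi n := (tm_summable n).le_tsum K (fun j _ => tm_nonneg _ _)
    refine le_trans ?_ h3
    unfold tm c
    have h4 : (q K : ℝ) ≤ 4 * n := by exact_mod_cast h1
    have h5 : (4 : ℝ) * n ≤ 3 * q K := by exact_mod_cast h2
    have h6 : (1 / 4 : ℝ) ≤ n / q K := by rw [le_div_iff₀ hq]; linarith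
    have h7 : (n / q K : ℝ) ≤ 3 / 4 := by rw [div_le_iff₀ hq]; linarith
    have hpi := Real.pi_pos
    have h8 : Real.cos (2 * Real.pi * (n / q K)) ≤ 0 := by
      apply Real.cos_nonpos_of_pi_div_two_le_of_le
      · nlinarith
      · nlinarith
    have := w_pos K
    nlinarith
  · have h3 := (tm_summable (n : ℝ)).sum_add_tsum_nat_add (K + 1)
    rw [psi, ← h3]
    have h4 : ∑ k ∈ Finset.range (K + 1), tm n k ≤ 8 * w K := by
      calc ∑ k ∈ Finset.range (K + 1), tm n k ≤ ∑ k ∈ Finset.range (K + 1), 4 * w k :=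
            Finset.sum_le_sum fun k _ => tm_le_w _ _
        _ = 4 * ∑ k ∈ Finset.range (K + 1), w k := by rw [Finset.mul_sum]
        _ ≤ 8 * w K := by have := sum_w K; linarith
    have h5 : ∑' k, tm (n : ℝ) (k + (K + 1)) ≤ 1 := by
      have hg : Summable (fun k : ℕ => (1 / 2 : ℝ) * (1 / 2) ^ k) :=
        (summable_geometric_of_lt_one (by norm_num) (by norm_num)).mul_left _
      calc ∑' k, tm (n : ℝ) (k + (K + 1)) ≤ ∑' k : ℕ, (1 / 2 : ℝ) * (1 / 2) ^ k := by
            refine Summable.tsum_le_tsum (fun k => ?_)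
              ((summable_nat_add_iff (K + 1)).2 (tm_summable _)) hg
            rw [show k + (K + 1) = (k + K) + 1 by ring]
            refine (tm_le_of_le (x := (n : ℝ)) (k := k + K) ?_).trans ?_
            · rw [abs_of_nonneg (Nat.cast_nonneg _)]
              have := q_mono (show K ≤ k + K by omega)
              exact_mod_cast (show n ≤ q (k + K) by omega)
            · have e : (1 / 4 : ℝ) ^ (k + K + 1) = (1 / 2) ^ (k + K + 1) * (1 / 2) ^ (k + K + 1) := by
                rw [← mul_pow]; norm_num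
              rw [e]
              refine mul_le_mul ?_ ?_ (by positivity) (by norm_num)
              · calc (1 / 2 : ℝ) ^ (k + K + 1) ≤ (1 / 2) ^ 1 :=
                      pow_le_pow_of_le_one (by norm_num) (by norm_num) (by omega)
                  _ = 1 / 2 := pow_one _
              · exact pow_le_pow_of_le_one (by norm_num) (by norm_num) (by omega)
        _ = 1 := by
            rw [tsum_mul_left, tsum_geometric_of_lt_one (by norm_num) (by norm_num)]
            norm_num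
    have := one_le_w K
    linarith

theorem G_mid (K n : ℕ) (h1 : q K ≤ 4 * n) (h2 : 4 * n ≤ 3 * q K) :
    |G (psi n) - (-1) ^ K| ≤ 9 * Real.exp (-(K * Real.pi)) := by
  obtain ⟨h3, h4⟩ := psi_mid K n h1 h2
  have hw := w_pos K
  have hcos : Real.cos (K * Real.pi) = (-1) ^ K := Real.cos_nat_mul_pi K
  rw [← hcos]
  refine (cos_lip _ _).trans ?_
  have hE : 0 < Real.exp (K * Real.pi) := Real.exp_pos _
  have h5 : Real.exp (K * Real.pi) ≤ Lam (psi n) := by
    unfold Lam
    rw [max_eq_left (psi_nonneg _), Real.le_log_iff_exp_le (by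
      have := psi_nonneg (n : ℝ); have := Real.exp_pos 1; linarith)]
    show w K ≤ _
    have := Real.exp_pos 1
    linarith
  have h6 : Lam (psi n) ≤ Real.exp (K * Real.pi) + 9 := by
    unfold Lam
    rw [max_eq_left (psi_nonneg _), Real.log_le_iff_le_exp (by
      have := psi_nonneg (n : ℝ); have := Real.exp_pos 1; linarith), Real.exp_add]
    have h7 : (10 : ℝ) ≤ Real.exp 9 := by
      have := Real.add_one_le_exp (9 : ℝ); linarith
    have h8 := exp_one_le_w K
    have h9 : w K * 10 ≤ w K * Real.exp 9 := mul_le_mul_of_nonneg_left h7 hw.le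
    show _ ≤ w K * Real.exp 9
    linarith
  have h7 : (K : ℝ) * Real.pi ≤ Real.log (Lam (psi n)) := by
    rw [Real.le_log_iff_exp_le (by linarith)]
    exact h5
  rw [abs_of_nonneg (by linarith)]
  have h8 : Real.log (Lam (psi n)) - K * Real.pi =
      Real.log (Lam (psi n) / Real.exp (K * Real.pi)) := by
    rw [Real.log_div (by linarith) hE.ne', Real.log_exp]
  rw [h8]
  refine (Real.log_le_sub_one_of_pos (div_pos (by linarith) hE)).trans ?_
  rw [Real.exp_neg, sub_le_iff_le_add, div_le_iff₀ hE, add_mul, mul_assoc,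
    inv_mul_cancel₀ hE.ne']
  linarith

/-- The Hilbert space. -/
abbrev HH : Type := lp (fun _ : ℕ => ℂ) 2

/-- The coordinates. -/
noncomputable def bc (n : ℤ) (k : ℕ) : ℂ :=
  (Real.sqrt (w k) : ℂ) * Complex.exp ((2 * Real.pi * ((n : ℝ) / q k) : ℝ) * Complex.I)

theorem norm_bc_sub (n m : ℤ) (k : ℕ) : ‖bc n k - bc m k‖ ^ 2 = tm ((n : ℝ) - m) k := by
  unfold bc tm c
  rw [← mul_sub, norm_mul, mul_pow, Complex.norm_real, Real.norm_eq_abs, sq_abs,
    Real.sq_sqrt (w_pos k).le]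
  congr 1
  rw [Complex.sq_norm, Complex.normSq_apply]
  simp only [Complex.sub_re, Complex.sub_im, Complex.exp_ofReal_mul_I_re,
    Complex.exp_ofReal_mul_I_im]
  rw [show 2 * Real.pi * (((n : ℝ) - m) / q k) =
    2 * Real.pi * ((n : ℝ) / q k) - 2 * Real.pi * ((m : ℝ) / q k) by ring, Real.cos_sub]
  have h1 := Real.sin_sq_add_cos_sq (2 * Real.pi * ((n : ℝ) / q k))
  have h2 := Real.sin_sq_add_cos_sq (2 * Real.pi * ((m : ℝ) / q k))
  nlinarith

theorem memlp (n : ℤ) : Memℓp (fun k => bc n k - bc 0 k) 2 := by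
  rw [memℓp_gen_iff (by norm_num)]
  have : (fun k => ‖bc n k - bc 0 k‖ ^ (2 : ENNReal).toReal) = tm ((n : ℝ) - (0 : ℤ)) := by
    funext k
    rw [← norm_bc_sub]
    norm_num
  rw [this]
  exact tm_summable _

/-- The orbit. -/
noncomputable def b (n : ℤ) : HH := ⟨fun k => bc n k - bc 0 k, memlp n⟩

theorem norm_b_sub (n m : ℤ) : ‖b n - b m‖ ^ 2 = psi ((n : ℝ) - m) := by
  have h := lp.norm_rpow_eq_tsum (p := 2) (by norm_num) (b n - b m)
  have h2 : ‖b n - b m‖ ^ 2 = ∑' k, ‖(b n - b m) k‖ ^ 2 := by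
    simpa using h
  rw [h2, psi]
  refine tsum_congr fun k => ?_
  rw [← norm_bc_sub]
  congr 2
  show (bc n k - bc 0 k) - (bc m k - bc 0 k) = _
  ring

/-- The function. -/
noncomputable def f (n : ℕ) : ℝ := G (psi n)

theorem abs_f_le (n : ℕ) : |f n| ≤ 1 := abs_G_le _

theorem f_eq (m a : ℕ) : f (m + a) = G (‖b m - b (-(a : ℤ))‖ ^ 2) := by
  rw [norm_b_sub]
  unfold f
  congr 2
  push_cast
  ring

theorem f_recurrent (n : ℕ) : Tendsto (fun j => f (n + q j)) atTop (𝓝 (f n)) := by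
  have h1 : ∀ j, f (n + q j) = G (‖b n - b (-(q j : ℤ))‖ ^ 2) := fun j => f_eq n (q j)
  have h2 : f n = G (‖b n - b 0‖ ^ 2) := by
    have := f_eq n 0
    simpa using this
  simp_rw [h1]
  rw [h2]
  have h3 : Tendsto (fun j => b (-(q j : ℤ))) atTop (𝓝 (b 0)) := by
    rw [tendsto_iff_norm_sub_tendsto_zero]
    have h4 : ∀ j, ‖b (-(q j : ℤ)) - b 0‖ ^ 2 ≤ 2 * (1 / 2) ^ j := by
      intro j
      rw [norm_sub_rev, norm_b_sub]
      have : ((0 : ℤ) : ℝ) - ((-(q j : ℤ) : ℤ) : ℝ) = q j := by push_cast; ring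
      rw [this]
      exact psi_q j
    have h5 : Tendsto (fun j => ‖b (-(q j : ℤ)) - b 0‖ ^ 2) atTop (𝓝 0) := by
      refine squeeze_zero (fun j => by positivity) h4 ?_
      have := (tendsto_pow_atTop_nhds_zero_of_lt_one (by norm_num : (0 : ℝ) ≤ 1 / 2)
        (by norm_num)).const_mul 2
      simpa using this
    have h6 := h5.sqrt
    simpa using h6
  exact (G_continuous.tendsto _).comp ((((tendsto_const_nhds).sub h3).norm).pow 2)

end Pool.Agent.Q189.NE
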