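import Pool.Agent.Q189.NE.Psi

/-!
# The orbit closure of the function `f`
-/

set_option autoImplicit false

open Filter Topology Set

namespace Pool.Agent.Q189.NE

/-- The alphabet. -/
abbrev V : Type := Icc (-1 : ℝ) 1

/-- The translates of `f`. -/
noncomputable def orb (m n : ℕ) : V := ⟨f (m + n), abs_le.1 (abs_f_le _)⟩

/-- The space. -/
abbrev X : Type := closure (range orb)

/-- The shift. -/
def sh (g : ℕ → V) : ℕ → V := fun n => g (n + 1)

theorem sh_continuous : Continuous sh := continuous_pi fun n => continuous_apply (n + 1)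

theorem mapsTo_sh : MapsTo sh (closure (range orb)) (closure (range orb)) := by
  refine MapsTo.closure ?_ sh_continuous
  rintro _ ⟨m, rfl⟩
  refine ⟨m + 1, ?_⟩
  funext n
  apply Subtype.ext
  show f (m + 1 + n) = f (m + (n + 1))
  congr 1
  ring

/-- The map. -/
def T : X → X := mapsTo_sh.restrict

theorem T_continuous : Continuous T := sh_continuous.restrict mapsTo_sh

theorem T_iter (n : ℕ) (x : X) (l : ℕ) : ((T^[n] x : X) : ℕ → V) l = (x : ℕ → V) (l + n) := by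
  induction n generalizing x l with
  | zero => rfl
  | succ n ih =>
    rw [Function.iterate_succ_apply, ih]
    show (x : ℕ → V) (l + n + 1) = _
    rw [add_assoc]

/-- The orbit as points of `X`. -/
noncomputable def po (m : ℕ) : X := ⟨orb m, subset_closure ⟨m, rfl⟩⟩

theorem T_po (m n : ℕ) : T^[n] (po m) = po (m + n) := by
  apply Subtype.ext
  funext l
  rw [T_iter]
  apply Subtype.ext
  show f (m + (l + n)) = f (m + n + l)
  congr 1
  ring

instance : CompactSpace X := isCompact_iff_compactSpace.1 isClosed_closure.isCompact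

theorem dense_po {U : Set X} (hU : IsOpen U) (hne : U.Nonempty) : ∃ m, po m ∈ U := by
  obtain ⟨W, hW, rfl⟩ := isOpen_induced_iff.1 hU
  obtain ⟨x, hx⟩ := hne
  obtain ⟨_, hy, ⟨m, rfl⟩⟩ := mem_closure_iff.1 x.2 W hW hx
  exact ⟨m, hy⟩

theorem po_recurrent (m : ℕ) : Tendsto (fun j => po (m + q j)) atTop (𝓝 (po m)) := by
  rw [tendsto_subtype_rng, tendsto_pi_nhds]
  intro n
  rw [tendsto_subtype_rng]
  show Tendsto (fun j => f (m + q j + n)) atTop (𝓝 (f (m + n)))
  have := f_recurrent (m + n)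
  refine this.congr fun j => ?_
  congr 1
  ring

theorem transitive {U W : Set X} (hU : IsOpen U) (hW : IsOpen W) (h1 : U.Nonempty)
    (h2 : W.Nonempty) : ∃ n : ℕ, 1 ≤ n ∧ (W ∩ T^[n] ⁻¹' U).Nonempty := by
  obtain ⟨m1, hm1⟩ := dense_po hW h2
  obtain ⟨m2, hm2⟩ := dense_po hU h1
  have h3 := (po_recurrent m2).eventually (hU.mem_nhds hm2)
  obtain ⟨j, hj1, hj2⟩ := (h3.and (eventually_ge_atTop (m1 + 1))).exists
  have := q_ge j
  refine ⟨m2 + q j - m1, by omega, po m1, hm1, ?_⟩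
  show T^[m2 + q j - m1] (po m1) ∈ U
  rw [T_po, show m1 + (m2 + q j - m1) = m2 + q j by omega]
  exact hj1

/-- A compatible metric. -/
noncomputable instance instMX : MetricSpace X := TopologicalSpace.metrizableSpaceMetric X

theorem uniform (ε : ℝ) (hε : 0 < ε) : ∃ n0 : ℕ, ∀ x y : X,
    (∀ l ≤ n0, |((x : ℕ → V) l : ℝ) - ((y : ℕ → V) l : ℝ)| ≤ 1 / ((n0 : ℝ) + 1)) →
      dist x y < ε := by
  let C : ℕ → Set (X × X) := fun n => {p | ∀ l ≤ n,
    |((p.1 : ℕ → V) l : ℝ) - ((p.2 : ℕ → V) l : ℝ)| ≤ 1 / ((n : ℝ) + 1)}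
  have hC : ∀ n, IsClosed (C n) := by
    intro n
    have : C n = ⋂ l, ⋂ (_ : l ≤ n), {p : X × X |
        |((p.1 : ℕ → V) l : ℝ) - ((p.2 : ℕ → V) l : ℝ)| ≤ 1 / ((n : ℝ) + 1)} := by
      ext p; simp [C]
    rw [this]
    refine isClosed_iInter fun l => isClosed_iInter fun _ => ?_
    have h1 : Continuous (fun p : X × X => ((p.1 : ℕ → V) l : ℝ)) :=
      continuous_subtype_val.comp ((continuous_apply l).comp
        (continuous_subtype_val.comp continuous_fst))
    have h2 : Continuous (fun p : X × X => ((p.2 : ℕ → V) l : ℝ)) :=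
      continuous_subtype_val.comp ((continuous_apply l).comp
        (continuous_subtype_val.comp continuous_snd))
    exact isClosed_le (h1.sub h2).abs continuous_const
  have hanti : Antitone C := by
    intro m n hmn p hp l hl
    refine (hp l (hl.trans hmn)).trans ?_
    have : (m : ℝ) ≤ n := by exact_mod_cast hmn
    gcongr
  have hdir : Directed (· ⊇ ·) C := hanti.directed_ge
  obtain ⟨n0, hn0⟩ := exists_subset_nhds_of_compactSpace hdir hC
    (U := {p : X × X | dist p.1 p.2 < ε}) (by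
      intro p hp
      have heq : p.1 = p.2 := by
        apply Subtype.ext
        funext l
        apply Subtype.ext
        have h1 : ∀ n ≥ l, |((p.1 : ℕ → V) l : ℝ) - ((p.2 : ℕ → V) l : ℝ)| ≤ 1 / ((n : ℝ) + 1) :=
          fun n hn => mem_iInter.1 hp n l hn
        have h2 : |((p.1 : ℕ → V) l : ℝ) - ((p.2 : ℕ → V) l : ℝ)| ≤ 0 :=
          ge_of_tendsto tendsto_one_div_add_atTop_nhds_zero_nat
            ((eventually_ge_atTop l).mono fun n hn => h1 n hn)
        have h3 := abs_nonpos_iff.1 h2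
        linarith
      refine (isOpen_lt (continuous_fst.dist continuous_snd) continuous_const).mem_nhds ?_
      show dist p.1 p.2 < ε
      rw [heq, dist_self]
      exact hε)
  exact ⟨n0, fun x y h => hn0 (show (x, y) ∈ C n0 from h)⟩

/-- The points of the Hilbert space attached to the times. -/
noncomputable def vv (a : ℕ → ℕ) (n l0 : ℕ) : Fin n × Fin (l0 + 1) → HH :=
  fun p => b (-((a p.1 + p.2 : ℕ) : ℤ))

theorem classes (γ : ℝ) (hγ : 0 < γ) : ∃ Tt g : ℕ, ∀ (a : ℕ → ℕ) (n l0 : ℕ), 0 < n →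
    ∃ Z : Cls (Fin n × Fin (l0 + 1)) Tt g → Fin n × Fin (l0 + 1) → ℝ,
      ∀ x : X, ∃ c, ∀ p : Fin n × Fin (l0 + 1),
        |((x : ℕ → V) (a p.1 + p.2) : ℝ) - Z c p| ≤ γ := by
  obtain ⟨Tt, g, h⟩ := main_cover γ hγ
  refine ⟨Tt, g, fun a n l0 hn => ?_⟩
  have : Nonempty (Fin n × Fin (l0 + 1)) := ⟨(⟨0, hn⟩, 0)⟩
  obtain ⟨Z, hZ⟩ := h HH (Fin n × Fin (l0 + 1)) (vv a n l0)
  refine ⟨Z, ?_⟩
  let K : Set (ℕ → V) := ⋃ c, ⋂ p : Fin n × Fin (l0 + 1),
    {y | |((y (a p.1 + p.2) : V) : ℝ) - Z c p| ≤ γ}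
  have hK : IsClosed K := by
    refine isClosed_iUnion_of_finite fun c => isClosed_iInter fun p => ?_
    have h1 : Continuous (fun y : ℕ → V => ((y (a p.1 + p.2) : V) : ℝ)) :=
      continuous_subtype_val.comp (continuous_apply _)
    exact isClosed_le (h1.sub continuous_const).abs continuous_const
  have hsub : closure (range orb) ⊆ K := by
    refine closure_minimal ?_ hK
    rintro _ ⟨m, rfl⟩
    obtain ⟨c, hc⟩ := hZ (b m)
    refine mem_iUnion.2 ⟨c, mem_iInter.2 fun p => ?_⟩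
    show |f (m + (a p.1 + p.2)) - Z c p| ≤ γ
    rw [f_eq]
    exact hc p
  intro x
  obtain ⟨c, hc⟩ := mem_iUnion.1 (hsub x.2)
  exact ⟨c, fun p => mem_iInter.1 hc p⟩

theorem null (a : ℕ → ℕ) (ε : ℝ) (hε : 0 < ε) (δ : ℝ) (hδ : 0 < δ) :
    ∀ᶠ n in atTop, ∀ F : Finset X,
      (∀ x ∈ F, ∀ y ∈ F, x ≠ y → ∃ i < n, ε ≤ dist (T^[a i] x) (T^[a i] y)) →
      (F.card : ℝ) ≤ Real.exp (δ * n) := by
  obtain ⟨l0, hl0⟩ := uniform ε hε
  obtain ⟨Tt, g, hcls⟩ := classes (1 / (2 * ((l0 : ℝ) + 1))) (by positivity)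
  have hcard : ∀ n : ℕ, 0 < n → ∀ F : Finset X,
      (∀ x ∈ F, ∀ y ∈ F, x ≠ y → ∃ i < n, ε ≤ dist (T^[a i] x) (T^[a i] y)) →
      F.card ≤ Fintype.card (Cls (Fin n × Fin (l0 + 1)) Tt g) := by
    intro n hn F hF
    obtain ⟨Z, hZ⟩ := hcls a n l0 hn
    choose c hc using hZ
    rw [← Finset.card_univ]
    refine Finset.card_le_card_of_injOn c (fun _ _ => Finset.mem_coe.2 (Finset.mem_univ _)) ?_
    intro x hx y hy hxy
    by_contra hne
    obtain ⟨i, hi, hd⟩ := hF x hx y hy hne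
    refine absurd hd (not_le.2 (hl0 _ _ fun l hl => ?_))
    rw [T_iter, T_iter]
    have h1 := hc x (⟨i, hi⟩, ⟨l, Nat.lt_succ_of_le hl⟩)
    have h2 := hc y (⟨i, hi⟩, ⟨l, Nat.lt_succ_of_le hl⟩)
    rw [hxy] at h1
    simp only at h1 h2
    rw [add_comm l (a i)]
    have e : 1 / ((l0 : ℝ) + 1) = 1 / (2 * ((l0 : ℝ) + 1)) + 1 / (2 * ((l0 : ℝ) + 1)) := by
      field_simp; norm_num
    rw [e]
    rw [abs_le] at h1 h2 ⊢
    constructor <;> linarith
  set C : ℝ := 2 * g * (2 * (l0 + 1) + 1) ^ (Tt + 2) with hC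
  have hbound : ∀ n : ℕ, 0 < n →
      (Fintype.card (Cls (Fin n × Fin (l0 + 1)) Tt g) : ℝ) ≤ C * (n : ℝ) ^ (Tt + 2) := by
    intro n hn
    have h1 : Fintype.card (Cls (Fin n × Fin (l0 + 1)) Tt g) =
        (n * (l0 + 1)) * ((n * (l0 + 1)) * g) +
          (n * (l0 + 1)) * (((n * (l0 + 1)) * 2 + 1) ^ Tt * g) := by
      simp [Fintype.card_sum, Fintype.card_prod, Fintype.card_option]
    rw [h1]
    have h2 : n * (l0 + 1) ≤ (2 * (l0 + 1) + 1) * n := by nlinarith
    have h3 : (n * (l0 + 1)) * 2 + 1 ≤ (2 * (l0 + 1) + 1) * n := by nlinarith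
    have h4 : 1 ≤ (2 * (l0 + 1) + 1) * n := by nlinarith
    have h5 : (n * (l0 + 1)) * ((n * (l0 + 1)) * g) +
        (n * (l0 + 1)) * (((n * (l0 + 1)) * 2 + 1) ^ Tt * g) ≤
        2 * g * ((2 * (l0 + 1) + 1) * n) ^ (Tt + 2) := by
      set M := (2 * (l0 + 1) + 1) * n
      have h6 : (n * (l0 + 1)) * ((n * (l0 + 1)) * g) ≤ M * (M * g) := by gcongr
      have h7 : (n * (l0 + 1)) * (((n * (l0 + 1)) * 2 + 1) ^ Tt * g) ≤ M * (M ^ Tt * g) := by
        gcongr
      have h8 : M * (M * g) ≤ g * M ^ (Tt + 2) := by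
        have : M ^ (Tt + 2) = M ^ Tt * (M * M) := by ring
        rw [this]
        have h9 : 1 ≤ M ^ Tt := Nat.one_le_pow _ _ h4
        calc M * (M * g) = g * (1 * (M * M)) := by ring
          _ ≤ g * (M ^ Tt * (M * M)) := by gcongr
      have h9 : M * (M ^ Tt * g) ≤ g * M ^ (Tt + 2) := by
        have : M ^ (Tt + 2) = M * (M * M ^ Tt) := by ring
        rw [this]
        calc M * (M ^ Tt * g) = g * (M * (1 * M ^ Tt)) := by ring
          _ ≤ g * (M * (M * M ^ Tt)) := by gcongr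
      calc _ ≤ M * (M * g) + M * (M ^ Tt * g) := Nat.add_le_add h6 h7
        _ ≤ g * M ^ (Tt + 2) + g * M ^ (Tt + 2) := Nat.add_le_add h8 h9
        _ = 2 * g * M ^ (Tt + 2) := by ring
    calc (((n * (l0 + 1)) * ((n * (l0 + 1)) * g) +
        (n * (l0 + 1)) * (((n * (l0 + 1)) * 2 + 1) ^ Tt * g) : ℕ) : ℝ) ≤
        ((2 * g * ((2 * (l0 + 1) + 1) * n) ^ (Tt + 2) : ℕ) : ℝ) := by exact_mod_cast h5
      _ = C * (n : ℝ) ^ (Tt + 2) := by rw [hC]; push_cast; rw [mul_pow]; ring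
  have hlit := (isLittleO_pow_exp_pos_mul_atTop (k := Tt + 2) hδ).comp_tendsto
    (tendsto_natCast_atTop_atTop (R := ℝ))
  have h6 := hlit.def (c := 1 / (C + 1)) (by positivity)
  filter_upwards [h6, eventually_gt_atTop 0] with n hn hn0 F hF
  have h7 : (F.card : ℝ) ≤ Fintype.card (Cls (Fin n × Fin (l0 + 1)) Tt g) := by
    exact_mod_cast hcard n hn0 F hF
  refine (h7.trans (hbound n hn0)).trans ?_
  simp only [Function.comp_apply, Real.norm_eq_abs] at hn
  rw [abs_of_nonneg (by positivity), abs_of_pos (Real.exp_pos _), one_div, inv_mul_eq_div,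
    le_div_iff₀ (by positivity)] at hn
  have h8 : 0 ≤ (n : ℝ) ^ (Tt + 2) := by positivity
  nlinarith

/-- The constant points. -/
theorem po_tendsto (s : V) (K : ℕ → ℕ) (hK : Tendsto K atTop atTop)
    (hs : ∀ j, (-1 : ℝ) ^ (K j) = s) :
    Tendsto (fun j => orb (q (K j) / 2)) atTop (𝓝 (fun _ => s)) := by
  rw [tendsto_pi_nhds]
  intro l
  rw [tendsto_subtype_rng]
  show Tendsto (fun j => f (q (K j) / 2 + l)) atTop (𝓝 (s : ℝ))
  rw [tendsto_iff_norm_sub_tendsto_zero]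
  have h1 : Tendsto (fun j => 9 * Real.exp (-((K j : ℝ) * Real.pi))) atTop (𝓝 0) := by
    have h2 : Tendsto (fun j => ((K j : ℝ) * Real.pi)) atTop atTop :=
      (tendsto_natCast_atTop_atTop.comp hK).atTop_mul_const Real.pi_pos
    have := (Real.tendsto_exp_neg_atTop_nhds_zero.comp h2).const_mul 9
    simpa using this
  refine squeeze_zero' (Eventually.of_forall fun j => norm_nonneg _) ?_ h1
  filter_upwards [hK.eventually_ge_atTop (4 * l)] with j hj
  have h3 := q_ge (K j)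
  obtain ⟨r, hr⟩ := four_dvd_q (K j)
  have h4 := G_mid (K j) (q (K j) / 2 + l) (by omega) (by omega)
  rw [hs] at h4
  exact h4

theorem const_mem (s : V) (K : ℕ → ℕ) (hK : Tendsto K atTop atTop)
    (hs : ∀ j, (-1 : ℝ) ^ (K j) = s) : (fun _ => s : ℕ → V) ∈ closure (range orb) :=
  mem_closure_of_tendsto (po_tendsto s K hK hs) (Eventually.of_forall fun j => ⟨_, rfl⟩)

/-- The value one. -/
def one : V := ⟨1, by norm_num, le_rfl⟩

theorem tendsto_two_mul : Tendsto (fun j : ℕ => 2 * j) atTop atTop :=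
  tendsto_id.const_mul_atTop' (by norm_num)

/-- The fixed point. -/
noncomputable def p1 : X := ⟨fun _ => one, const_mem one (fun j => 2 * j) tendsto_two_mul
  (fun j => by rw [pow_mul]; norm_num [one])⟩

theorem T_p1 (n : ℕ) : T^[n] p1 = p1 := by
  apply Subtype.ext
  funext l
  rw [T_iter]
  rfl

theorem far : ∃ c : ℝ, 0 < c ∧ ∀ x : X, ((x : ℕ → V) 0 : ℝ) ≤ 0 → c ≤ dist x p1 := by
  have hcl : IsClosed {x : X | ((x : ℕ → V) 0 : ℝ) ≤ 0} :=
    isClosed_le (continuous_subtype_val.comp ((continuous_apply 0).comp continuous_subtype_val))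
      continuous_const
  have hp : p1 ∉ {x : X | ((x : ℕ → V) 0 : ℝ) ≤ 0} := by
    show ¬ (1 : ℝ) ≤ 0
    norm_num
  obtain ⟨c, hc, h⟩ := Metric.isOpen_iff.1 hcl.isOpen_compl p1 hp
  refine ⟨c, hc, fun x hx => ?_⟩
  by_contra hcon
  push Not at hcon
  exact h (Metric.mem_ball.2 hcon) hx

theorem not_mean : ¬ ∀ ε : ℝ, 0 < ε → ∃ δ : ℝ, 0 < δ ∧ ∀ x y : X, dist x y < δ →
    ∀ᶠ n in atTop, (∑ i ∈ Finset.range n, dist (T^[i] x) (T^[i] y)) / (n : ℝ) < ε := by
  intro h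
  obtain ⟨c, hc, hfar⟩ := far
  obtain ⟨δ, hδ, hd⟩ := h (c / 4) (by positivity)
  have h1 : Tendsto (fun j : ℕ => po (q (2 * j) / 2)) atTop (𝓝 p1) := by
    rw [tendsto_subtype_rng]
    exact po_tendsto one (fun j => 2 * j) tendsto_two_mul
      (fun j => by rw [pow_mul]; norm_num [one])
  obtain ⟨j, hj⟩ := (h1.eventually (Metric.ball_mem_nhds p1 hδ)).exists
  set m := q (2 * j) / 2 with hm
  have h2 := hd (po m) p1 hj
  have hq : Tendsto (fun K : ℕ => q (2 * K + 1)) atTop atTop := by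
    refine tendsto_atTop_mono (fun K => ?_) tendsto_id
    have := q_ge (2 * K + 1)
    simp only [id]
    omega
  have h3 := (hq.eventually h2).and ((hq.eventually_ge_atTop (8 * m + 8)).and
    (eventually_ge_atTop 2))
  obtain ⟨K, hK1, hK2, hK3⟩ := h3.exists
  obtain ⟨r, hr⟩ := four_dvd_q (2 * K + 1)
  set N := q (2 * K + 1) with hN
  have hN0 : (0 : ℝ) < N := by exact_mod_cast q_pos _
  rw [div_lt_iff₀ hN0] at hK1
  have h4 : ∀ i ∈ Finset.Icc r (3 * r - m), c ≤ dist (T^[i] (po m)) (T^[i] p1) := by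
    intro i hi
    rw [Finset.mem_Icc] at hi
    rw [T_p1, T_po]
    apply hfar
    show f (m + i + 0) ≤ 0
    rw [add_zero]
    have h5 := G_mid (2 * K + 1) (m + i) (by omega) (by omega)
    have h6 : ((-1 : ℝ)) ^ (2 * K + 1) = -1 := by rw [pow_succ, pow_mul]; norm_num
    rw [h6] at h5
    have h7 : 9 * Real.exp (-(((2 * K + 1 : ℕ) : ℝ) * Real.pi)) ≤ 1 := by
      rw [Real.exp_neg]
      have h8 : (9 : ℝ) ≤ Real.exp (((2 * K + 1 : ℕ) : ℝ) * Real.pi) := by
        have h9 := Real.add_one_le_exp (((2 * K + 1 : ℕ) : ℝ) * Real.pi)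
        have h10 : (5 : ℝ) ≤ ((2 * K + 1 : ℕ) : ℝ) := by exact_mod_cast (show 5 ≤ 2 * K + 1 by omega)
        have := Real.pi_gt_three
        nlinarith
      rw [mul_inv_le_iff₀ (Real.exp_pos _)]
      linarith
    have := (abs_le.1 h5).2
    show G (psi ((m + i : ℕ) : ℝ)) ≤ 0
    linarith
  have h5 : c * ((3 * r - m + 1 - r : ℕ) : ℝ) ≤
      ∑ i ∈ Finset.range N, dist (T^[i] (po m)) (T^[i] p1) := by
    calc c * ((3 * r - m + 1 - r : ℕ) : ℝ) = ∑ i ∈ Finset.Icc r (3 * r - m), c := by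
          rw [Finset.sum_const, Nat.card_Icc, nsmul_eq_mul, mul_comm]
      _ ≤ ∑ i ∈ Finset.Icc r (3 * r - m), dist (T^[i] (po m)) (T^[i] p1) := Finset.sum_le_sum h4
      _ ≤ _ := by
          refine Finset.sum_le_sum_of_subset_of_nonneg ?_ (fun _ _ _ => dist_nonneg)
          intro i hi
          rw [Finset.mem_Icc] at hi
          rw [Finset.mem_range]
          omega
  have h6 : (N : ℝ) / 4 ≤ ((3 * r - m + 1 - r : ℕ) : ℝ) := by
    have : r ≤ 3 * r - m + 1 - r := by omega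
    have h7 : (r : ℝ) ≤ ((3 * r - m + 1 - r : ℕ) : ℝ) := by exact_mod_cast this
    have h8 : (N : ℝ) = 4 * r := by rw [hr]; push_cast; ring
    linarith
  nlinarith

end Pool.Agent.Q189.NE
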